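import Mathlib
import Pool.Agent.H188R3.DD6
import Pool.Agent.H188R3.Stmt

/-!
There are simple unital C*-algebras `A`, `B` with stably finite minimal tensor product `D`, finite
groups `G`, `H` and actions `α`, `β` such that the tensor product action of `G × H` on `D` has the
tracial Rokhlin property and `α` does not have it.

`A` is a simple inductive limit, without nontrivial projections, of dimension drop algebras over the
circle, `α` is induced by the rotation `z ↦ -z`, `B` is the UHF algebra of type `2^∞` and `H` is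
trivial.
-/

set_option autoImplicit false

noncomputable section

namespace Pool.Agent.Results.MP_eaab15_an.TracialRokhlinTensorFactor

open Pool.Agent.H188R3 Pool.Agent.H188R3.St

theorem tracial_of_rokhlin {K D : Type} [Group K] [Fintype K] [CStarAlgebra D]
    (σ : St.Act K D) (h : St.Rokhlin σ) : St.TracialRokhlin σ := by
  intro F ε hε x _ _
  obtain ⟨e, h1, h2, h3, h4⟩ := h F ε hε
  refine ⟨e, h1, h2, h3, 0, ?_, ?_⟩
  · rw [h4, sub_self, mul_zero]
  · rw [zero_mul]
    exact subset_closure ⟨0, by simp⟩

theorem result : ∃ (A B D G H : Type) (_ : CStarAlgebra A) (_ : CStarAlgebra B)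
    (_ : CStarAlgebra D) (_ : Group G) (_ : Fintype G) (_ : Group H) (_ : Fintype H)
    (f : St.Hom A D) (g : St.Hom B D) (α : St.Act G A) (β : St.Act H B) (γ : St.Act (G × H) D),
    IsSimpleRing A ∧ IsSimpleRing B ∧ St.IsMinTensor f g ∧ St.StablyFinite D ∧
    St.IsTensorAction f g α β γ ∧ St.TracialRokhlin γ ∧ ¬ St.TracialRokhlin α := by
  obtain ⟨C, _, j, α, hj, hC, hCs, hCf, hα, hjα, hflip⟩ := dd_flip.lim
  obtain ⟨B, D, _, _, f, g, γ, hB, hten, hsf, hact, hR⟩ := main_of_flip α hα hflip
  exact ⟨C, B, D, ℤˣ, Unit, inferInstance, inferInstance, inferInstance, inferInstance,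
    inferInstance, inferInstance, inferInstance, f, g, toAct (act α hα),
    toAct (1 : Unit →* (B ≃⋆ₐ[ℂ] B)), toAct γ, hCs, hB, isMinTensor_of hten, hsf,
    isTensorAction_of hact, tracial_of_rokhlin _ ((rokhlin_toAct γ).2 hR),
    fun h => dd_not_tracialRokhlin hj α hα ((tracialRokhlin_toAct _).1 h)⟩

end Pool.Agent.Results.MP_eaab15_an.TracialRokhlinTensorFactor
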